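import Pool.Agent.Y743.AF.Stm

/-! Job AF-CR1 (helper762): prime polynomials at the points `t` and `t / lam` are uncorrelated. -/

set_option autoImplicit false

open MeasureTheory Filter

namespace Pool.Agent.Y762.AF.Cr1

open Pool.Agent.Y743.AF

lemma mem_Prm {X p : ℕ} (h : p ∈ Prm X) : p.Prime ∧ 2 ≤ p ∧ p ≤ X := by
  unfold Prm at h
  rw [Finset.mem_filter, Finset.mem_Icc] at h
  exact ⟨h.2, h.2.two_le, h.1.2⟩

/-! ### the single integral -/

lemma int_cos (w φ A B : ℝ) (hw : w ≠ 0) : |∫ t in A..B, Real.cos (w * t + φ)| ≤ 2 / |w| := by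
  have h := intervalIntegral.integral_comp_mul_add (a := A) (b := B) Real.cos hw φ
  rw [h, integral_cos, smul_eq_mul, abs_mul, abs_inv]
  have h1 : |Real.sin (w * B + φ) - Real.sin (w * A + φ)| ≤ 2 := by
    have h3 := Real.abs_sin_le_one (w * B + φ)
    have h4 := Real.abs_sin_le_one (w * A + φ)
    calc _ ≤ |Real.sin (w * B + φ)| + |Real.sin (w * A + φ)| := abs_sub _ _
      _ ≤ 2 := by linarith
  have h2 : 0 < |w| := abs_pos.2 hw
  rw [div_eq_inv_mul]
  gcongr

/-- the integral of a product of two cosines -/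
noncomputable def J (A B b d x y : ℝ) : ℝ :=
  ∫ t in A..B, Real.cos ((t + b) * x) * Real.cos ((t + d) * y)

lemma J_triv (A B b d x y : ℝ) (hAB : A ≤ B) : |J A B b d x y| ≤ B - A := by
  unfold J
  have h := intervalIntegral.norm_integral_le_of_norm_le_const (a := A) (b := B) (C := 1)
    (f := fun t => Real.cos ((t + b) * x) * Real.cos ((t + d) * y)) (fun t _ => by
      rw [norm_mul, Real.norm_eq_abs, Real.norm_eq_abs]
      have h3 := Real.abs_cos_le_one ((t + b) * x)
      have h4 := Real.abs_cos_le_one ((t + d) * y)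
      have h5 := abs_nonneg (Real.cos ((t + b) * x))
      have h6 := abs_nonneg (Real.cos ((t + d) * y))
      nlinarith)
  rw [Real.norm_eq_abs, one_mul, abs_of_nonneg (by linarith : (0:ℝ) ≤ B - A)] at h
  exact h

lemma J_le (A B b d x y : ℝ) (hx : 0 < x) (hy : 0 < y) (hxy : x ≠ y) :
    |J A B b d x y| ≤ 1 / |x - y| + 1 / (x + y) := by
  have e : J A B b d x y = (∫ t in A..B, Real.cos ((x - y) * t + (b * x - d * y))) / 2 +
      (∫ t in A..B, Real.cos ((x + y) * t + (b * x + d * y))) / 2 := by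
    unfold J
    rw [← intervalIntegral.integral_div, ← intervalIntegral.integral_div,
      ← intervalIntegral.integral_add]
    · refine intervalIntegral.integral_congr fun t _ => ?_
      have h1 : (x - y) * t + (b * x - d * y) = (t + b) * x - (t + d) * y := by ring
      have h2 : (x + y) * t + (b * x + d * y) = (t + b) * x + (t + d) * y := by ring
      rw [h1, h2, Real.cos_sub, Real.cos_add]
      ring
    · exact (by fun_prop : Continuous fun t => Real.cos ((x - y) * t + (b * x - d * y)) / 2).intervalIntegrable _ _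
    · exact (by fun_prop : Continuous fun t => Real.cos ((x + y) * t + (b * x + d * y)) / 2).intervalIntegrable _ _
  rw [e]
  have h1 := int_cos (x - y) (b * x - d * y) A B (sub_ne_zero.2 hxy)
  have h2 := int_cos (x + y) (b * x + d * y) A B (by positivity)
  rw [abs_of_pos (by positivity : 0 < x + y)] at h2
  refine le_trans (abs_add_le _ _) ?_
  rw [abs_div, abs_div, abs_two]
  have e1 : 1 / |x - y| = 2 / |x - y| / 2 := by ring
  have e2 : 1 / (x + y) = 2 / (x + y) / 2 := by ring
  rw [e1, e2]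
  gcongr

/-! ### resonant pairs -/

/-- two distinct natural numbers at most `Y` have logarithms at distance at least `1 / Y` -/
lemma log_gap (q q' : ℕ) (Y : ℝ) (hq : 1 ≤ q) (hqq : q < q') (hY : (q' : ℝ) ≤ Y) :
    1 / Y ≤ Real.log q' - Real.log q := by
  have hq0 : (0 : ℝ) < q := by exact_mod_cast hq
  have hq0' : (0 : ℝ) < q' := by exact_mod_cast (lt_of_lt_of_le Nat.zero_lt_one (hq.trans hqq.le))
  have hq1 : (q : ℝ) + 1 ≤ q' := by exact_mod_cast hqq
  have h := Real.one_sub_inv_le_log_of_pos (x := (q' : ℝ) / q) (by positivity)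
  rw [Real.log_div hq0'.ne' hq0.ne'] at h
  refine le_trans ?_ h
  have h1 : (1 : ℝ) - ((q' : ℝ) / q)⁻¹ = (q' - q) / q' := by
    field_simp
  rw [h1]
  have h2 : 1 / Y ≤ 1 / (q' : ℝ) := by gcongr
  refine le_trans h2 ?_
  gcongr
  linarith

lemma tail (μ ε : ℝ) (hμ : 1 < μ) (hε : 0 < ε) : ∃ K : ℕ, 1 ≤ K ∧ ∀ s : Finset ℕ,
    (∀ p ∈ s, K < p) → ∑ p ∈ s, ((p : ℝ) ^ ((1 + μ) / 2))⁻¹ ≤ ε := by
  have hs : Summable fun n : ℕ => ((n : ℝ) ^ ((1 + μ) / 2))⁻¹ := by
    rw [Real.summable_nat_rpow_inv]; linarith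
  rw [summable_iff_vanishing_norm] at hs
  obtain ⟨s, hs⟩ := hs ε hε
  refine ⟨s.sup id + 1, by omega, fun t ht => ?_⟩
  have hd : Disjoint t s := by
    rw [Finset.disjoint_left]
    intro p hp hps
    have h1 := ht p hp
    have h2 : p ≤ s.sup id := Finset.le_sup (f := id) hps
    omega
  have h := hs t hd
  exact le_trans (le_abs_self _) h.le

lemma res_lemma (μ ε : ℝ) (hμ : 1 < μ) (hε : 0 < ε) : ∃ η Y0 : ℝ, 0 < η ∧ 1 ≤ Y0 ∧
    ∀ Y : ℝ, Y0 ≤ Y → ∀ X : ℕ, (X : ℝ) ≤ Y → ∀ u v : ℕ → ℝ,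
    (∀ p : ℕ, p.Prime → |u p| ≤ 1 / Real.sqrt p ∧ |u p| ≤ η * Real.log p) →
    (∀ p : ℕ, p.Prime → |v p| ≤ 1 / Real.sqrt p ∧ |v p| ≤ η * Real.log p) →
    ∑ p ∈ Prm X, ∑ q ∈ (Prm X).filter (fun q : ℕ => |μ * Real.log p - Real.log q| < μ / Y ^ 4),
      |u p| * |v q| ≤ ε := by
  obtain ⟨K, hK1, hK⟩ := tail μ (ε / 4) hμ (by positivity)
  have hK0 : (1 : ℝ) ≤ K := by exact_mod_cast hK1
  have hlK : 0 ≤ Real.log K := Real.log_nonneg hK0
  set D : ℝ := K * (μ * (Real.log K + 1)) with hD
  have hD0 : 0 < D := by positivity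
  refine ⟨ε / (2 * D), 2 * μ, by positivity, by linarith, ?_⟩
  intro Y hY X hX u v hu hv
  set η : ℝ := ε / (2 * D) with hη
  have hη0 : 0 < η := by positivity
  have hY1 : 1 ≤ Y := by linarith
  have hY0 : 0 < Y := by linarith
  have hmuY : μ / Y ^ 4 ≤ 1 / 2 := by
    rw [div_le_div_iff₀ (by positivity) (by norm_num)]
    have : Y ≤ Y ^ 4 := le_self_pow₀ hY1 (by norm_num)
    linarith
  -- at most one resonant q
  have hone : ∀ p ∈ Prm X, ((Prm X).filter
      (fun q : ℕ => |μ * Real.log p - Real.log q| < μ / Y ^ 4)).card ≤ 1 := by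
    intro p _
    rw [Finset.card_le_one]
    have key : ∀ q q' : ℕ, q ∈ Prm X → q' ∈ Prm X → |μ * Real.log p - Real.log q| < μ / Y ^ 4 →
        |μ * Real.log p - Real.log q'| < μ / Y ^ 4 → ¬ q < q' := by
      intro q q' hq hq' h1 h2 hlt
      have h3 := log_gap q q' Y (by have := (mem_Prm hq).2.1; omega) hlt
        (le_trans (by exact_mod_cast (mem_Prm hq').2.2) hX)
      rw [abs_lt] at h1 h2
      have h4 : Real.log q' - Real.log q < 2 * (μ / Y ^ 4) := by linarith [h1.2, h2.1]
      have h5 : 1 / Y < 2 * (μ / Y ^ 4) := lt_of_le_of_lt h3 h4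
      have h6 : 2 * (μ / Y ^ 4) ≤ 1 / Y := by
        have e : 2 * (μ / Y ^ 4) = (2 * μ) / Y ^ 4 := by ring
        rw [e, div_le_div_iff₀ (by positivity) hY0]
        have : Y ≤ Y ^ 3 := le_self_pow₀ hY1 (by norm_num)
        calc 2 * μ * Y ≤ Y ^ 3 * Y := by
              apply mul_le_mul_of_nonneg_right _ hY0.le
              linarith
          _ = 1 * Y ^ 4 := by ring
      linarith
    intro q hq q' hq'
    rw [Finset.mem_filter] at hq hq'
    by_contra hne
    rcases lt_or_gt_of_ne hne with h | h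
    · exact key q q' hq.1 hq'.1 hq.2 hq'.2 h
    · exact key q' q hq'.1 hq.1 hq'.2 hq.2 h
  have hu1 : ∀ p : ℕ, p.Prime → |u p| ≤ 1 := by
    intro p hp
    refine le_trans (hu p hp).1 ?_
    rw [div_le_one (Real.sqrt_pos.2 (by exact_mod_cast hp.pos))]
    rw [Real.one_le_sqrt]
    exact_mod_cast hp.one_le
  -- the bound for a given p
  have hinner : ∀ p ∈ Prm X, ∑ q ∈ (Prm X).filter
      (fun q : ℕ => |μ * Real.log p - Real.log q| < μ / Y ^ 4), |u p| * |v q| ≤
      if p ≤ K then η * (μ * (Real.log K + 1)) else 2 * ((p : ℝ) ^ ((1 + μ) / 2))⁻¹ := by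
    intro p hp
    obtain ⟨hpp, hp2, hpX⟩ := mem_Prm hp
    have hp0 : (0 : ℝ) < p := by exact_mod_cast hpp.pos
    have hp1 : (1 : ℝ) ≤ p := by exact_mod_cast hpp.one_le
    set C : ℝ := if p ≤ K then η * (μ * (Real.log K + 1)) else 2 * ((p : ℝ) ^ ((1 + μ) / 2))⁻¹
      with hC
    have hC0 : 0 ≤ C := by
      rw [hC]; split_ifs <;> positivity
    have hterm : ∀ q ∈ (Prm X).filter
        (fun q : ℕ => |μ * Real.log p - Real.log q| < μ / Y ^ 4), |u p| * |v q| ≤ C := by
      intro q hq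
      rw [Finset.mem_filter] at hq
      obtain ⟨hqq, hq2, hqX⟩ := mem_Prm hq.1
      have hq0 : (0 : ℝ) < q := by exact_mod_cast hqq.pos
      have hres := hq.2
      rw [abs_lt] at hres
      rw [hC]
      split_ifs with hpK
      · have h1 : Real.log q ≤ μ * (Real.log K + 1) := by
          have h2 : Real.log p ≤ Real.log K := Real.log_le_log hp0 (by exact_mod_cast hpK)
          have h3 : μ * Real.log p ≤ μ * Real.log K := by gcongr
          linarith [hres.1]
        calc |u p| * |v q| ≤ 1 * (η * Real.log q) := by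
              apply mul_le_mul (hu1 p hpp) (hv q hqq).2 (abs_nonneg _) zero_le_one
          _ = η * Real.log q := one_mul _
          _ ≤ η * (μ * (Real.log K + 1)) := by gcongr
      · -- q is at least p ^ μ / 4
        have h1 : μ * Real.log p - 1 / 2 ≤ Real.log q := by linarith [hres.2]
        have h2 : (p : ℝ) ^ μ / 4 ≤ q := by
          have h3 : Real.log ((p : ℝ) ^ μ / 4) ≤ Real.log q := by
            rw [Real.log_div (by positivity) (by norm_num), Real.log_rpow hp0]
            have h4 : (1 : ℝ) / 2 ≤ Real.log 4 := by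
              have : Real.log 2 ≤ Real.log 4 := Real.log_le_log (by norm_num) (by norm_num)
              linarith [Real.log_two_gt_d9]
            linarith
          exact (Real.log_le_log_iff (by positivity) hq0).1 h3
        have h5 : Real.sqrt ((p : ℝ) ^ μ / 4) ≤ Real.sqrt q := Real.sqrt_le_sqrt h2
        have h6 : Real.sqrt ((p : ℝ) ^ μ / 4) = (p : ℝ) ^ (μ / 2) / 2 := by
          rw [Real.sqrt_div (by positivity)]
          congr 1
          · rw [Real.sqrt_eq_rpow, ← Real.rpow_mul hp0.le]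
            congr 1; ring
          · rw [show (4 : ℝ) = 2 ^ 2 by norm_num]
            exact Real.sqrt_sq (by norm_num)
        rw [h6] at h5
        have hpos : 0 < (p : ℝ) ^ (μ / 2) / 2 := by positivity
        calc |u p| * |v q| ≤ (1 / Real.sqrt p) * (1 / Real.sqrt q) := by
              apply mul_le_mul (hu p hpp).1 (hv q hqq).1 (abs_nonneg _) (by positivity)
          _ ≤ (1 / Real.sqrt p) * (1 / ((p : ℝ) ^ (μ / 2) / 2)) := by gcongr
          _ = 2 * ((p : ℝ) ^ ((1 + μ) / 2))⁻¹ := by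
              rw [show (1 + μ) / 2 = 1 / 2 + μ / 2 by ring, Real.rpow_add hp0,
                Real.sqrt_eq_rpow]
              field_simp
    refine le_trans (Finset.sum_le_card_nsmul _ _ C hterm) ?_
    rw [nsmul_eq_mul]
    have h7 : (((Prm X).filter
      (fun q : ℕ => |μ * Real.log p - Real.log q| < μ / Y ^ 4)).card : ℝ) ≤ 1 := by
      exact_mod_cast hone p hp
    calc _ ≤ 1 * C := by gcongr
      _ = C := one_mul _
  refine le_trans (Finset.sum_le_sum hinner) ?_
  rw [Finset.sum_ite]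
  have hs1 : ∑ p ∈ (Prm X).filter (fun p => p ≤ K), η * (μ * (Real.log K + 1)) ≤ ε / 2 := by
    rw [Finset.sum_const, nsmul_eq_mul]
    have hcard : (((Prm X).filter (fun p => p ≤ K)).card : ℝ) ≤ K := by
      have : ((Prm X).filter (fun p => p ≤ K)).card ≤ (Finset.Icc 1 K).card := by
        apply Finset.card_le_card
        intro p hp
        rw [Finset.mem_filter] at hp
        rw [Finset.mem_Icc]
        exact ⟨by have := (mem_Prm hp.1).2.1; omega, hp.2⟩
      rw [Nat.card_Icc] at this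
      exact_mod_cast this
    calc _ ≤ (K : ℝ) * (η * (μ * (Real.log K + 1))) := by gcongr
      _ = η * D := by rw [hD]; ring
      _ = ε / 2 := by rw [hη]; field_simp
      _ ≤ ε / 2 := le_rfl
  have hs2 : ∑ p ∈ (Prm X).filter (fun p => ¬ p ≤ K), 2 * ((p : ℝ) ^ ((1 + μ) / 2))⁻¹ ≤ ε / 2 := by
    rw [← Finset.mul_sum]
    have := hK ((Prm X).filter (fun p => ¬ p ≤ K)) (fun p hp => by
      rw [Finset.mem_filter] at hp
      omega)
    linarith
  linarith

lemma res2 (lam ε : ℝ) (hlam : 0 < lam) (hne : lam ≠ 1) (hε : 0 < ε) : ∃ η Y0 : ℝ, 0 < η ∧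
    1 ≤ Y0 ∧ ∀ Y : ℝ, Y0 ≤ Y → ∀ X : ℕ, (X : ℝ) ≤ Y → ∀ u v : ℕ → ℝ,
    (∀ p : ℕ, p.Prime → |u p| ≤ 1 / Real.sqrt p ∧ |u p| ≤ η * Real.log p) →
    (∀ p : ℕ, p.Prime → |v p| ≤ 1 / Real.sqrt p ∧ |v p| ≤ η * Real.log p) →
    ∑ p ∈ Prm X, ∑ q ∈ (Prm X).filter (fun q : ℕ => |Real.log p - Real.log q / lam| < 1 / Y ^ 4),
      |u p| * |v q| ≤ ε := by
  rcases lt_or_gt_of_ne hne with hlt | hgt
  · have hμ : 1 < 1 / lam := by rw [lt_div_iff₀ hlam]; linarith
    obtain ⟨η, Y0, h1, h2, h3⟩ := res_lemma (1 / lam) ε hμ hε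
    refine ⟨η, Y0, h1, h2, fun Y hY X hX u v hu hv => ?_⟩
    have hY0 : 0 < Y := by linarith
    refine le_trans ?_ (h3 Y hY X hX v u hv hu)
    simp_rw [Finset.sum_filter]
    rw [Finset.sum_comm]
    refine Finset.sum_le_sum fun q _ => Finset.sum_le_sum fun p _ => ?_
    have hm : (1 : ℝ) / Y ^ 4 ≤ 1 / lam / Y ^ 4 := by gcongr
    split_ifs with ha hb
    · rw [mul_comm]
    · exfalso
      apply hb
      rw [abs_sub_comm]
      have e : 1 / lam * Real.log q = Real.log q / lam := by ring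
      rw [e]
      linarith
    · positivity
    · exact le_rfl
  · obtain ⟨η, Y0, h1, h2, h3⟩ := res_lemma lam ε hgt hε
    refine ⟨η, Y0, h1, h2, fun Y hY X hX u v hu hv => ?_⟩
    have hY0 : 0 < Y := by linarith
    refine le_trans (le_of_eq ?_) (h3 Y hY X hX u v hu hv)
    refine Finset.sum_congr rfl fun p _ => ?_
    congr 1
    refine Finset.filter_congr fun q _ => ?_
    have e : lam * Real.log p - Real.log q = lam * (Real.log p - Real.log q / lam) := by
      field_simp
    rw [e, abs_mul, abs_of_pos hlam, show lam / Y ^ 4 = lam * (1 / Y ^ 4) by ring]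
    exact (mul_lt_mul_iff_right₀ hlam).symm

theorem cr1 : Pool.Agent.Y743.AF.S_CR1 := by
  intro lam ε hlam hne hε
  obtain ⟨η, Y0, hη, hY01, hres⟩ := res2 lam (ε / 2) hlam hne (by positivity)
  set L : ℝ := 3 with hL
  set Y1 : ℝ := max Y0 (2 * L / ε + 1) with hY1
  have hL0 : 0 < L := by positivity
  have hY11 : 1 ≤ Y1 := le_trans hY01 (le_max_left _ _)
  refine ⟨η, Y1 ^ (8 : ℕ), hη, one_le_pow₀ hY11, ?_⟩
  intro T hT X hX u v hu hv A B b d hAB hBA
  -- the parameter Y = T ^ (1/8)
  have hT1 : 1 ≤ T := le_trans (one_le_pow₀ hY11) hT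
  have hT0 : 0 < T := by linarith
  set Y : ℝ := T ^ (1 / 8 : ℝ) with hYdef
  have hY8 : Y ^ 8 = T := by
    rw [hYdef, ← Real.rpow_natCast, ← Real.rpow_mul hT0.le]
    norm_num
  have hY1Y : Y1 ≤ Y := by
    have h : Y1 ^ 8 ≤ Y ^ 8 := by rw [hY8]; exact hT
    exact le_of_pow_le_pow_left₀ (by norm_num) (by positivity) h
  have hYge : 1 ≤ Y := le_trans hY11 hY1Y
  have hY0 : 0 < Y := by linarith
  have hR := hres Y (le_trans (le_max_left _ _) hY1Y) X hX u v hu hv
  have hsm : ∀ w : ℕ → ℝ, (∀ p : ℕ, p.Prime → |w p| ≤ 1 / Real.sqrt p ∧ |w p| ≤ η * Real.log p) →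
      ∀ p : ℕ, p.Prime → |w p| ≤ 1 := by
    intro w hw p hp
    refine le_trans (hw p hp).1 ?_
    rw [div_le_one (Real.sqrt_pos.2 (by exact_mod_cast hp.pos))]
    rw [Real.one_le_sqrt]
    exact_mod_cast hp.one_le
  have hu1 := hsm u hu
  have hv1 := hsm v hv
  -- expand
  have hexp : (∫ t in A..B, (∑ p ∈ Prm X, u p * Real.cos ((t + b) * Real.log p)) *
        (∑ q ∈ Prm X, v q * Real.cos ((t + d) / lam * Real.log q))) =
      ∑ p ∈ Prm X, ∑ q ∈ Prm X, u p * v q * J A B b d (Real.log p) (Real.log q / lam) := by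
    have e1 : ∀ t : ℝ, (∑ p ∈ Prm X, u p * Real.cos ((t + b) * Real.log p)) *
        (∑ q ∈ Prm X, v q * Real.cos ((t + d) / lam * Real.log q)) =
        ∑ p ∈ Prm X, ∑ q ∈ Prm X, u p * v q * (Real.cos ((t + b) * Real.log p) *
          Real.cos ((t + d) * (Real.log q / lam))) := by
      intro t
      rw [Finset.sum_mul_sum]
      refine Finset.sum_congr rfl fun p _ => Finset.sum_congr rfl fun q _ => ?_
      have e2 : (t + d) / lam * Real.log q = (t + d) * (Real.log q / lam) := by ring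
      rw [e2]; ring
    simp_rw [e1]
    rw [intervalIntegral.integral_finsetSum]
    · refine Finset.sum_congr rfl fun p _ => ?_
      rw [intervalIntegral.integral_finsetSum]
      · refine Finset.sum_congr rfl fun q _ => ?_
        rw [intervalIntegral.integral_const_mul]
        rfl
      · intro q _
        exact (by fun_prop : Continuous fun t : ℝ => u p * v q * (Real.cos ((t + b) * Real.log p) *
          Real.cos ((t + d) * (Real.log q / lam)))).intervalIntegrable _ _
    · intro p _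
      exact (by fun_prop : Continuous fun t : ℝ => ∑ q ∈ Prm X, u p * v q *
        (Real.cos ((t + b) * Real.log p) *
          Real.cos ((t + d) * (Real.log q / lam)))).intervalIntegrable _ _
  rw [hexp]
  -- termwise bound
  have hterm : ∀ p ∈ Prm X, ∀ q ∈ Prm X,
      |u p * v q * J A B b d (Real.log p) (Real.log q / lam)| ≤
      (if |Real.log p - Real.log q / lam| < 1 / Y ^ 4 then |u p| * |v q| else 0) * T +
        L * Y ^ 4 := by
    intro p hp q hq
    obtain ⟨hpp, hp2, _⟩ := mem_Prm hp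
    obtain ⟨hqq, hq2, _⟩ := mem_Prm hq
    have hlp : 1 / 2 ≤ Real.log p := by
      have : Real.log 2 ≤ Real.log p := Real.log_le_log (by norm_num) (by exact_mod_cast hp2)
      linarith [Real.log_two_gt_d9]
    have hlq : 0 < Real.log q / lam := by
      have : 0 < Real.log q := Real.log_pos (by exact_mod_cast hqq.one_lt)
      positivity
    rw [abs_mul, abs_mul]
    split_ifs with hr
    · have h1 := J_triv A B b d (Real.log p) (Real.log q / lam) hAB
      have h2 : |u p| * |v q| * |J A B b d (Real.log p) (Real.log q / lam)| ≤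
          |u p| * |v q| * T := by
        gcongr
        linarith
      have h3 : 0 ≤ L * Y ^ 4 := by positivity
      linarith
    · push Not at hr
      have hpos : 0 < |Real.log p - Real.log q / lam| := lt_of_lt_of_le (by positivity) hr
      have h1 := J_le A B b d (Real.log p) (Real.log q / lam) (by linarith) hlq
        (sub_ne_zero.1 (abs_pos.1 hpos))
      have h2 : 1 / |Real.log p - Real.log q / lam| ≤ Y ^ 4 := by
        rw [div_le_iff₀ hpos]
        rw [div_le_iff₀ (by positivity)] at hr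
        linarith
      have h3 : 1 / (Real.log p + Real.log q / lam) ≤ 2 := by
        rw [div_le_iff₀ (by linarith)]
        linarith
      have hY4 : 1 ≤ Y ^ 4 := one_le_pow₀ hYge
      calc |u p| * |v q| * |J A B b d (Real.log p) (Real.log q / lam)|
          ≤ 1 * 1 * (Y ^ 4 + 2) := by
            apply mul_le_mul
            · exact mul_le_mul (hu1 p hpp) (hv1 q hqq) (abs_nonneg _) zero_le_one
            · linarith
            · exact abs_nonneg _
            · norm_num
        _ ≤ 0 * T + L * Y ^ 4 := by rw [hL]; linarith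
  have hcard : ((Prm X).card : ℝ) ≤ Y := by
    have h1 : (Prm X).card ≤ X := by
      refine le_trans (Finset.card_filter_le _ _) ?_
      simp
    exact le_trans (by exact_mod_cast h1) hX
  calc |∑ p ∈ Prm X, ∑ q ∈ Prm X, u p * v q * J A B b d (Real.log p) (Real.log q / lam)|
      ≤ ∑ p ∈ Prm X, |∑ q ∈ Prm X, u p * v q * J A B b d (Real.log p) (Real.log q / lam)| :=
        Finset.abs_sum_le_sum_abs _ _
    _ ≤ ∑ p ∈ Prm X, ∑ q ∈ Prm X, |u p * v q * J A B b d (Real.log p) (Real.log q / lam)| :=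
        Finset.sum_le_sum fun p _ => Finset.abs_sum_le_sum_abs _ _
    _ ≤ ∑ p ∈ Prm X, ∑ q ∈ Prm X,
        ((if |Real.log p - Real.log q / lam| < 1 / Y ^ 4 then |u p| * |v q| else 0) * T +
          L * Y ^ 4) := Finset.sum_le_sum fun p hp => Finset.sum_le_sum fun q hq => hterm p hp q hq
    _ = (∑ p ∈ Prm X, ∑ q ∈ (Prm X).filter
          (fun q : ℕ => |Real.log p - Real.log q / lam| < 1 / Y ^ 4), |u p| * |v q|) * T +
          (Prm X).card * ((Prm X).card * (L * Y ^ 4)) := by
        simp_rw [Finset.sum_add_distrib, Finset.sum_filter, Finset.sum_mul, Finset.sum_const,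
          nsmul_eq_mul]
    _ ≤ ε / 2 * T + Y * (Y * (L * Y ^ 4)) := by gcongr
    _ ≤ ε / 2 * T + ε / 2 * T := by
        have h1 : 2 * L / ε ≤ Y ^ 2 := by
          have h2 : 2 * L / ε + 1 ≤ Y := le_trans (le_max_right _ _) hY1Y
          have h3 : Y ≤ Y ^ 2 := le_self_pow₀ hYge (by norm_num)
          linarith
        rw [div_le_iff₀ hε] at h1
        have h4 : Y * (Y * (L * Y ^ 4)) ≤ ε / 2 * Y ^ 8 := by
          have h5 : L ≤ ε / 2 * Y ^ 2 := by linarith
          calc Y * (Y * (L * Y ^ 4)) = L * Y ^ 6 := by ring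
            _ ≤ ε / 2 * Y ^ 2 * Y ^ 6 := by gcongr
            _ = ε / 2 * Y ^ 8 := by ring
        rw [hY8] at h4
        linarith
    _ = ε * T := by ring

end Pool.Agent.Y762.AF.Cr1
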