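import Pool.Agent.Y743.AF.Stm

/-! Job AF-MATCH (helper762): counting in windows under a matching. -/

set_option autoImplicit false

open MeasureTheory Filter

namespace Pool.Agent.Y762.AF.Match

open Pool.Agent.Y743.AF

/-- the indicator of `[x - h, x)` -/
noncomputable def ind (h x t : ℝ) : ℝ := Set.indicator (Set.Ico (x - h) x) (fun _ => (1 : ℝ)) t

lemma ind_eq (h x t : ℝ) : ind h x t = if t < x ∧ x ≤ t + h then 1 else 0 := by
  unfold ind Set.indicator
  by_cases hx : t < x ∧ x ≤ t + h
  · rw [if_pos hx, if_pos]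
    exact ⟨by linarith [hx.2], hx.1⟩
  · rw [if_neg hx, if_neg]
    rintro ⟨h1, h2⟩
    exact hx ⟨h2, by linarith⟩

lemma int_ico (a b : ℝ) : Integrable (Set.indicator (Set.Ico a b) (fun _ => (1 : ℝ))) := by
  rw [integrable_indicator_iff measurableSet_Ico]
  simp [IntegrableOn]

lemma ico_le (a b A B : ℝ) (hab : a ≤ b) (hAB : A ≤ B) :
    ∫ t in A..B, Set.indicator (Set.Ico a b) (fun _ => (1 : ℝ)) t ≤ b - a := by
  rw [intervalIntegral.integral_of_le hAB]
  refine le_trans (setIntegral_le_integral (int_ico a b) ?_) ?_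
  · exact Filter.Eventually.of_forall fun t => Set.indicator_nonneg (fun _ _ => zero_le_one) t
  · rw [integral_indicator measurableSet_Ico]
    simp [hab]

lemma int_ind (h x A B : ℝ) : IntervalIntegrable (ind h x) volume A B :=
  (int_ico (x - h) x).intervalIntegrable

lemma int_abs (h x y A B : ℝ) :
    IntervalIntegrable (fun t => |ind h x t - ind h y t|) volume A B :=
  ((int_ind h x A B).sub (int_ind h y A B)).abs

lemma abs_le_one (h x t : ℝ) : 0 ≤ ind h x t ∧ ind h x t ≤ 1 := by
  rw [ind_eq]; split_ifs <;> norm_num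

lemma bound1 (h x y A B : ℝ) (hh : 0 ≤ h) (hAB : A ≤ B) :
    ∫ t in A..B, |ind h x t - ind h y t| ≤ 2 * h := by
  have h1 : ∫ t in A..B, |ind h x t - ind h y t| ≤ ∫ t in A..B, (ind h x t + ind h y t) := by
    refine intervalIntegral.integral_mono_on hAB (int_abs h x y A B)
      ((int_ind h x A B).add (int_ind h y A B)) fun t _ => ?_
    have := abs_le_one h x t
    have := abs_le_one h y t
    rw [abs_le]; constructor <;> linarith
  rw [intervalIntegral.integral_add (int_ind h x A B) (int_ind h y A B)] at h1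
  have h2 := ico_le (x - h) x A B (by linarith) hAB
  have h3 := ico_le (y - h) y A B (by linarith) hAB
  have e2 : ∫ t in A..B, ind h x t ≤ h := le_trans h2 (by linarith)
  have e3 : ∫ t in A..B, ind h y t ≤ h := le_trans h3 (by linarith)
  linarith

lemma bound2_aux (h x y A B : ℝ) (hxy : x ≤ y) (hAB : A ≤ B) :
    ∫ t in A..B, |ind h x t - ind h y t| ≤ 2 * (y - x) := by
  have h1 : ∫ t in A..B, |ind h x t - ind h y t| ≤
      ∫ t in A..B, (Set.indicator (Set.Ico (x - h) (y - h)) (fun _ => (1 : ℝ)) t +
        Set.indicator (Set.Ico x y) (fun _ => (1 : ℝ)) t) := by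
    refine intervalIntegral.integral_mono_on hAB (int_abs h x y A B)
      ((int_ico _ _).intervalIntegrable.add (int_ico _ _).intervalIntegrable) fun t _ => ?_
    rw [ind_eq, ind_eq]
    unfold Set.indicator
    simp only [Set.mem_Ico]
    split_ifs <;> norm_num <;> grind
  rw [intervalIntegral.integral_add (int_ico _ _).intervalIntegrable
    (int_ico _ _).intervalIntegrable] at h1
  have h2 := ico_le (x - h) (y - h) A B (by linarith) hAB
  have h3 := ico_le x y A B (by linarith) hAB
  linarith

lemma bound2 (h x y A B : ℝ) (hAB : A ≤ B) :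
    ∫ t in A..B, |ind h x t - ind h y t| ≤ 2 * |x - y| := by
  rcases le_total x y with hxy | hxy
  · rw [abs_of_nonpos (by linarith)]
    have := bound2_aux h x y A B hxy hAB
    linarith
  · rw [abs_of_nonneg (by linarith)]
    have := bound2_aux h y x A B hxy hAB
    simp_rw [abs_sub_comm (ind h x _)]
    linarith

lemma ii_sum {ι : Type*} (s : Finset ι) (f : ι → ℝ → ℝ) (A B : ℝ)
    (hf : ∀ i ∈ s, IntervalIntegrable (f i) volume A B) :
    IntervalIntegrable (fun t => ∑ i ∈ s, f i t) volume A B := by
  have h := IntervalIntegrable.sum s hf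
  have e : (∑ i ∈ s, f i) = fun t => ∑ i ∈ s, f i t := by
    funext t; exact Finset.sum_apply t s f
  rwa [e] at h

theorem matching : Pool.Agent.Y743.AF.S_MATCH := by
  intro N g σ lam c h η A B hσ hinj hh hη hAB
  have himg : (Finset.Icc 1 N).image σ = Finset.Icc 1 N := by
    apply Finset.eq_of_subset_of_card_le
    · intro m hm
      obtain ⟨n, hn, rfl⟩ := Finset.mem_image.1 hm
      exact hσ n hn
    · rw [Finset.card_image_of_injOn hinj]
  have hF : ∀ t, (((Finset.Icc 1 N).filter (fun n => t < g n ∧ g n ≤ t + h)).card : ℝ) =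
      ∑ n ∈ Finset.Icc 1 N, ind h (g (σ n)) t := by
    intro t
    have e1 : ∑ n ∈ Finset.Icc 1 N, ind h (g (σ n)) t = ∑ n ∈ Finset.Icc 1 N, ind h (g n) t := by
      conv_rhs => rw [← himg]
      rw [Finset.sum_image (f := fun n => ind h (g n) t) hinj]
    rw [e1, Finset.card_filter]
    push_cast
    exact Finset.sum_congr rfl fun n _ => (ind_eq h (g n) t).symm
  have hG : ∀ t, (((Finset.Icc 1 N).filter
      (fun n => t < lam * g n + c ∧ lam * g n + c ≤ t + h)).card : ℝ) =
      ∑ n ∈ Finset.Icc 1 N, ind h (lam * g n + c) t := by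
    intro t
    rw [Finset.card_filter]
    push_cast
    exact Finset.sum_congr rfl fun n _ => (ind_eq h _ t).symm
  have hint : ∀ n ∈ Finset.Icc 1 N, IntervalIntegrable
      (fun t => |ind h (g (σ n)) t - ind h (lam * g n + c) t|) volume A B :=
    fun n _ => int_abs _ _ _ _ _
  have h1 : ∫ t in A..B, |(((Finset.Icc 1 N).filter (fun n => t < g n ∧ g n ≤ t + h)).card : ℝ) -
      (((Finset.Icc 1 N).filter (fun n => t < lam * g n + c ∧ lam * g n + c ≤ t + h)).card : ℝ)| ≤
      ∫ t in A..B, ∑ n ∈ Finset.Icc 1 N, |ind h (g (σ n)) t - ind h (lam * g n + c) t| := by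
    simp_rw [hF, hG]
    refine intervalIntegral.integral_mono_on hAB ?_ ?_ ?_
    · apply IntervalIntegrable.abs
      apply IntervalIntegrable.sub
      · exact ii_sum _ (fun n => ind h (g (σ n))) _ _ (fun n _ => int_ind _ _ _ _)
      · exact ii_sum _ (fun n => ind h (lam * g n + c)) _ _ (fun n _ => int_ind _ _ _ _)
    · exact ii_sum _ _ _ _ hint
    · intro t _
      rw [← Finset.sum_sub_distrib]
      exact Finset.abs_sum_le_sum_abs _ _
  refine le_trans h1 ?_
  rw [intervalIntegral.integral_finsetSum hint]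
  rw [← Finset.sum_filter_add_sum_filter_not (Finset.Icc 1 N)
    (fun n => η < |g (σ n) - (lam * g n + c)|)]
  refine add_le_add ?_ ?_
  · refine le_trans (Finset.sum_le_card_nsmul _ _ (2 * h) fun n _ => bound1 _ _ _ _ _ hh hAB) ?_
    rw [nsmul_eq_mul, mul_comm]
  · refine le_trans (Finset.sum_le_card_nsmul _ _ (2 * η) fun n hn => ?_) ?_
    · refine le_trans (bound2 _ _ _ _ _ hAB) ?_
      have := (Finset.mem_filter.1 hn).2
      push Not at this
      linarith
    · rw [nsmul_eq_mul, mul_comm]
      refine mul_le_mul_of_nonneg_left ?_ (by positivity)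
      have : ((Finset.Icc 1 N).filter
          (fun n => ¬ η < |g (σ n) - (lam * g n + c)|)).card ≤ N := by
        refine le_trans (Finset.card_filter_le _ _) ?_
        simp
      exact_mod_cast this

end Pool.Agent.Y762.AF.Match
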